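import Pool.Agent.Q204.BS.Gen

/-!
# MP_bdb089_mp (full answer to Q1: no): a beam-splitter state of Fock-bounded pure states that is
# not an extreme point of `D₊`

`ψ = (|0⟩ + √2 |2⟩)/√3`, `φ = |0⟩`.  The Wigner function of `σ(ψ, φ)` is
`exp(-x²-p²) ((x²+p²-1)² + 4x²)/(3π)`, and `σ(ψ, φ)` is the midpoint of two states with Wigner
functions `exp(-x²-p²) ((x²+p²-1)² + 4x² ± x (x²+p²-1))/(3π)`.

Definitions (in `Pool.Agent.Q204.BS.Main`): `H`, `Op`, `fock`, `FockBounded`, `rot`, `outKet`,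
`contr`, `IsBeamSplitterState`, `IsMixture`, `wigner`, `DPlus`, `IsComb`, `IsExtreme`, `psi`; that
`rot` is the group `exp (θ (a† b - a b†))` is `Pool.Agent.Q204.BS.rot_generator`.
-/

set_option autoImplicit false

open Pool.Agent.Q204.BS

namespace Pool.Agent.Results.MP_bdb089_mp.NotExtreme

/-- **Q1 is false.**  For the Fock-bounded pure states `psi = (|0⟩ + √2 |2⟩)/√3` and `|0⟩`, the
beam-splitter state `S = σ(psi, |0⟩)` (which exists and is unique) is in `D₊`, is the midpoint of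
two distinct elements of `D₊`, and so is not an extreme point of `D₊`. -/
theorem result : FockBounded psi ∧ FockBounded (fock 0) ∧
    ∃ S : Op, (∀ T : Op, IsBeamSplitterState psi (fock 0) T ↔ T = S) ∧ S ∈ DPlus ∧
      (∃ A ∈ DPlus, ∃ B ∈ DPlus, A ≠ B ∧ IsComb (1 / 2) A B S) ∧ ¬ IsExtreme S :=
  ⟨fockBounded_psi, fockBounded_vac, rho 0, bs_iff, rho_mem (by norm_num),
    ⟨rho 1, rho_mem (by norm_num), rho (-1), rho_mem (by norm_num), rho_ne', rho_comb⟩,
    rho_not_extreme⟩

end Pool.Agent.Results.MP_bdb089_mp.NotExtreme
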